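import Pool.Agent.H3R4.LD.Space

/-!
# Consistently there is a regular L-space with a D-separable square

Some forcing notion preserves `ω₁` and forces diamond; diamond gives a Tychonoff hereditarily
Lindelöf nonseparable space with a D-separable square.

The space: diamond gives a coherent Suslin tree of functions from countable ordinals to `ℤ`, closed
under finite modifications; the points are its nodes, and the topology is generated by the cones
and their complements.
-/

set_option autoImplicit false

namespace Pool.Agent.Results.MP_ffd784_gt.DSeparableSquare

open Pool.Agent.H3R4.LD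
open Pool.Agent.Helper292.ForceCH (OmegaOnePreserved DiamondHolds)

/-- (1) Some forcing notion preserves `ω₁` and forces diamond.  (2) Diamond implies that there is
a Tychonoff hereditarily Lindelöf space `X` which is not separable and whose square is
D-separable. -/
theorem result :
    (∃ (P : Type) (_ : Preorder P), Nonempty P ∧ ∀ p : P,
      p ∈ OmegaOnePreserved P ∧ p ∈ DiamondHolds P) ∧
    (Diamond → ∃ (X : Type) (_ : TopologicalSpace X), T35Space X ∧
      HereditarilyLindelofSpace X ∧ ¬ TopologicalSpace.SeparableSpace X ∧ DSeparable (X × X)) := by
  refine ⟨?_, fun hD => ?_⟩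
  · obtain ⟨P, hP, hne, h⟩ := Pool.Agent.Helper292.ForceCH.exists_forcing
    exact ⟨P, hP, hne, fun p => ⟨(h p).1, (h p).2.1⟩⟩
  · obtain ⟨f, hc, hS⟩ := exists_suslin hD
    exact ⟨Sp f, inferInstance, inferInstance, hereditarilyLindelof hc hS, not_separable,
      dSeparable_sq hc⟩

end Pool.Agent.Results.MP_ffd784_gt.DSeparableSquare
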